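import Mathlib

namespace Pool.Agent.Results.MP_5e4462_co.EarCount

open Finset Relation

variable {V : Type}

/-- Directed reachability along arcs of `E`. -/
def Reach (E : Finset (V × V)) : V → V → Prop := ReflTransGen fun a b => (a, b) ∈ E

/-- Reachability in the underlying undirected graph with the vertex `x` deleted. -/
def UReach (E : Finset (V × V)) (x : V) : V → V → Prop :=
  ReflTransGen fun a b => a ≠ x ∧ b ≠ x ∧ ((a, b) ∈ E ∨ (b, a) ∈ E)

/-- Strongly connected, and no articulation point in the underlying graph. -/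
def StronglyBiconnected (E : Finset (V × V)) : Prop :=
  (∀ u v, Reach E u v) ∧ ∀ x u v, u ≠ x → v ≠ x → UReach E x u v

lemma rmono {r p : V → V → Prop} (h : ∀ a b, r a b → p a b) {u v : V} (q : ReflTransGen r u v) :
    ReflTransGen p u v := by
  induction q with
  | refl => exact .refl
  | tail _ e ih => exact ih.tail (h _ _ e)

lemma Reach.mono {E F : Finset (V × V)} (h : E ⊆ F) {u v : V} (r : Reach E u v) : Reach F u v :=
  rmono (fun _ _ e => h e) r

lemma UReach.mono {E F : Finset (V × V)} (h : E ⊆ F) {x u v : V} (r : UReach E x u v) :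
    UReach F x u v :=
  rmono (fun _ _ e => ⟨e.1, e.2.1, e.2.2.imp (fun e => h e) fun e => h e⟩) r

lemma UReach.symm {E : Finset (V × V)} {x u v : V} (r : UReach E x u v) : UReach E x v u := by
  induction r with
  | refl => exact .refl
  | tail _ e ih => exact ReflTransGen.head ⟨e.2.1, e.1, e.2.2.symm⟩ ih

lemma Reach.toU {A : Finset (V × V)} {x u v : V} (h : ∀ e ∈ A, e.1 ≠ x ∧ e.2 ≠ x)
    (r : Reach A u v) : UReach A x u v :=
  rmono (fun _ _ e => ⟨(h _ e).1, (h _ e).2, Or.inl e⟩) r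

variable [DecidableEq V]

/-- A directed path from `w` to `b` whose vertices other than `b` form `T`, outside `S`. -/
inductive Ear (E : Finset (V × V)) (S : Finset V) (b : V) :
    V → Finset V → Finset (V × V) → Prop
  | base (w : V) : w ∉ S → (w, b) ∈ E → Ear E S b w {w} {(w, b)}
  | step (w w' : V) (T : Finset V) (A : Finset (V × V)) : w ∉ S → w ∉ T → (w, w') ∈ E →
      Ear E S b w' T A → Ear E S b w (insert w T) (insert (w, w') A)

variable {E : Finset (V × V)} {S : Finset V} {b : V}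

lemma Ear.sub {w : V} {T : Finset V} {A : Finset (V × V)} (h : Ear E S b w T A) :
    ∀ t ∈ T, ∃ T' A', Ear E S b t T' A' := by
  induction h with
  | base w h1 h2 => intro t ht; rw [mem_singleton.1 ht]; exact ⟨_, _, .base w h1 h2⟩
  | step w w' T A h1 h2 h3 h4 ih =>
    intro t ht
    rcases mem_insert.1 ht with rfl | ht
    · exact ⟨_, _, .step t w' T A h1 h2 h3 h4⟩
    · exact ih t ht

lemma Ear.props (hb : b ∈ S) {w : V} {T : Finset V} {A : Finset (V × V)} (h : Ear E S b w T A) :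
    w ∈ T ∧ (∀ t ∈ T, t ∉ S) ∧ A ⊆ E ∧ A.card ≤ T.card ∧
      (∀ e ∈ A, e.1 ∈ T ∧ (e.2 ∈ T ∨ e.2 = b)) ∧ (∀ t ∈ T, Reach A w t ∧ Reach A t b) ∧
      ∀ x, ∀ t ∈ T, t ≠ x → (w ≠ x ∧ UReach A x t w) ∨ (b ≠ x ∧ UReach A x t b) := by
  induction h with
  | base w h1 h2 =>
    refine ⟨by simp, by simpa, by simpa, by simp, by simp, ?_, ?_⟩
    · intro t ht
      rw [mem_singleton.1 ht]
      exact ⟨.refl, .single (by simp)⟩
    · intro x t ht hx
      rw [mem_singleton.1 ht] at hx ⊢
      exact Or.inl ⟨hx, .refl⟩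
  | step w w' T A h1 h2 h3 _ ih =>
    obtain ⟨i1, i2, i3, i4, i5, i6, i7⟩ := ih
    have hs : A ⊆ insert (w, w') A := subset_insert _ _
    have h0 : Reach (insert (w, w') A) w w' := .single (by simp)
    refine ⟨by simp, ?_, insert_subset h3 i3, ?_, ?_, ?_, ?_⟩
    · intro t ht
      rcases mem_insert.1 ht with rfl | ht
      · exact h1
      · exact i2 t ht
    · rw [card_insert_of_notMem h2]
      exact (card_insert_le _ _).trans (by omega)
    · intro e he
      rcases mem_insert.1 he with rfl | he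
      · simp [i1]
      · exact ⟨mem_insert_of_mem (i5 e he).1, (i5 e he).2.imp mem_insert_of_mem id⟩
    · intro t ht
      rcases mem_insert.1 ht with rfl | ht
      · exact ⟨.refl, h0.trans ((i6 w' i1).2.mono hs)⟩
      · exact ⟨h0.trans ((i6 t ht).1.mono hs), (i6 t ht).2.mono hs⟩
    · intro x t ht hx
      rcases mem_insert.1 ht with rfl | ht
      · exact Or.inl ⟨hx, .refl⟩
      by_cases hw : w = x
      · subst hw
        have hbw : b ≠ w := fun e => h1 (e ▸ hb)
        refine Or.inr ⟨hbw, ((i6 t ht).2.toU fun e he => ⟨fun h => h2 ?_, ?_⟩).mono hs⟩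
        · rw [← h]; exact (i5 e he).1
        rcases (i5 e he).2 with h | h
        · exact fun h' => h2 (h' ▸ h)
        · exact h ▸ hbw
      · rcases i7 x t ht hx with ⟨h4, h5⟩ | ⟨h4, h5⟩
        · exact Or.inl ⟨hw, (h5.mono hs).tail ⟨h4, hw, Or.inr (by simp)⟩⟩
        · exact Or.inr ⟨h4, h5.mono hs⟩

/-- `w` reaches `b` through vertices outside `S`. -/
def Out (E : Finset (V × V)) (S : Finset V) (w b : V) : Prop :=
  b ∈ S ∧ ∃ T A, Ear E S b w T A

lemma Out.head {w w' : V} (h : Out E S w' b) (hw : w ∉ S) (e : (w, w') ∈ E) : Out E S w b := by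
  obtain ⟨hb, T, A, h⟩ := h
  by_cases hT : w ∈ T
  · exact ⟨hb, h.sub w hT⟩
  · exact ⟨hb, _, _, .step w w' T A hw hT e h⟩

lemma out_exists {w s : V} (hs : s ∈ S) (r : Reach E w s) : w ∉ S → ∃ b, Out E S w b := by
  induction r using ReflTransGen.head_induction_on with
  | refl => exact fun h => absurd hs h
  | @head a c e _ ih =>
    intro ha
    by_cases hc : c ∈ S
    · exact ⟨c, hc, _, _, .base a ha e⟩
    · obtain ⟨b, h⟩ := ih hc
      exact ⟨b, h.head ha e⟩

lemma entry {w s : V} (hs : s ∈ S) (r : Reach E s w) : w ∉ S →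
    ∃ a ∈ S, ∃ w0, w0 ∉ S ∧ (a, w0) ∈ E ∧ ∀ b, Out E S w b → Out E S w0 b := by
  induction r with
  | refl => exact fun h => absurd hs h
  | @tail c d _ e ih =>
    intro hd
    by_cases hc : c ∈ S
    · exact ⟨c, hc, d, hd, e, fun _ h => h⟩
    · obtain ⟨a, ha, w0, h1, h2, h3⟩ := ih hc
      exact ⟨a, ha, w0, h1, h2, fun b h => h3 b (h.head hc e)⟩

lemma find_ear (hE : StronglyBiconnected E) {s w : V} (hs : s ∈ S) (hw : w ∉ S) :
    ∃ a ∈ S, ∃ w0 b, (a, w0) ∈ E ∧ Out E S w0 b ∧ (a ≠ b ∨ ∀ y ∈ S, y = a) := by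
  by_contra hc
  push Not at hc
  have uniq : ∀ v, v ∉ S → ∃ a, Out E S v a ∧ (∀ b, Out E S v b → b = a) ∧ ∃ y ∈ S, y ≠ a := by
    intro v hv
    obtain ⟨a, ha, w0, -, h2, h3⟩ := entry hs (hE.1 s v) hv
    obtain ⟨b, hb⟩ := out_exists hs (hE.1 v s) hv
    obtain ⟨e, hy⟩ := hc a ha w0 b h2 (h3 b hb)
    exact ⟨a, e ▸ hb, fun b' hb' => (hc a ha w0 b' h2 (h3 b' hb')).1.symm, hy⟩
  obtain ⟨x, hx, -, y, hy, hyx⟩ := uniq w hw
  have key : ∀ v, UReach E x w v → v ∉ S ∧ Out E S v x := by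
    intro v r
    induction r with
    | refl => exact ⟨hw, hx⟩
    | @tail c d _ e ih =>
      obtain ⟨-, hd, e⟩ := e
      obtain ⟨a, -, ha, -⟩ := uniq c ih.1
      have hdS : d ∉ S := by
        intro hdS
        rcases e with e | e
        · exact hd ((ha d ⟨hdS, _, _, .base c ih.1 e⟩).trans (ha x ih.2).symm)
        · exact hd (hc d hdS c x e ih.2).1
      refine ⟨hdS, ?_⟩
      rcases e with e | e
      · obtain ⟨a', h1, -⟩ := uniq d hdS
        have : a' = x := (ha a' (h1.head ih.1 e)).trans (ha x ih.2).symm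
        exact this ▸ h1
      · exact ih.2.head hdS e
  exact (key y (hE.2 x w y (fun e => hw (e ▸ hx.1)) hyx)).1 hy

/-- The invariant: a strongly biconnected subgraph on `S` with at most `2|S| - 2` arcs. -/
def Good (E : Finset (V × V)) (S : Finset V) : Prop :=
  ∃ F ⊆ E, F.card + 2 ≤ 2 * S.card ∧ (∀ u ∈ S, ∀ v ∈ S, Reach F u v) ∧
    ∀ x, ∀ u ∈ S, ∀ v ∈ S, u ≠ x → v ≠ x → UReach F x u v

lemma extend (hE : StronglyBiconnected E) {s w : V} (hs : s ∈ S) (hw : w ∉ S) (hG : Good E S) :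
    ∃ S', S ⊂ S' ∧ Good E S' := by
  obtain ⟨F, f1, f2, f3, f4⟩ := hG
  obtain ⟨a, ha, w0, b, e, ⟨hb, T, A, h⟩, hab⟩ := find_ear hE hs hw
  obtain ⟨i1, i2, i3, i4, i5, i6, i7⟩ := h.props hb
  have hd : Disjoint S T := disjoint_right.2 i2
  have hF : F ⊆ insert (a, w0) (F ∪ A) := subset_union_left.trans (subset_insert _ _)
  have hA : A ⊆ insert (a, w0) (F ∪ A) := subset_union_right.trans (subset_insert _ _)
  refine ⟨S ∪ T, ⟨subset_union_left, fun h => i2 w0 i1 (h (mem_union_right _ i1))⟩,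
    insert (a, w0) (F ∪ A), insert_subset e (union_subset f1 i3), ?_, ?_, ?_⟩
  · have h1 := card_insert_le (a, w0) (F ∪ A)
    have h2 := card_union_le F A
    have h3 := card_pos.2 ⟨w0, i1⟩
    rw [card_union_of_disjoint hd]
    omega
  · have h1 : ∀ u ∈ S ∪ T, Reach (insert (a, w0) (F ∪ A)) u a ∧
        Reach (insert (a, w0) (F ∪ A)) a u := by
      intro u hu
      rcases mem_union.1 hu with hu | hu
      · exact ⟨(f3 u hu a ha).mono hF, (f3 a ha u hu).mono hF⟩
      · exact ⟨((i6 u hu).2.mono hA).trans ((f3 b hb a ha).mono hF),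
          ReflTransGen.head (by simp) ((i6 u hu).1.mono hA)⟩
    exact fun u hu v hv => (h1 u hu).1.trans (h1 v hv).2
  · intro x
    by_cases hx : x = a ∧ a = b
    · obtain ⟨rfl, rfl⟩ := hx
      have h1 : ∀ u ∈ S ∪ T, u ≠ x → UReach (insert (x, w0) (F ∪ A)) x u w0 := by
        intro u hu hux
        rcases mem_union.1 hu with hu | hu
        · exact absurd (hab.resolve_left (by simp) u hu) hux
        · rcases i7 x u hu hux with h | h
          · exact h.2.mono hA
          · exact absurd rfl h.1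
      exact fun u hu v hv h2 h3 => (h1 u hu h2).trans (h1 v hv h3).symm
    · have h1 : ∀ u ∈ S ∪ T, u ≠ x → ∃ y ∈ S, y ≠ x ∧ UReach (insert (a, w0) (F ∪ A)) x u y := by
        intro u hu hux
        rcases mem_union.1 hu with hu | hu
        · exact ⟨u, hu, hux, .refl⟩
        rcases i7 x u hu hux with h | h
        · by_cases hxa : a = x
          · subst hxa
            have hba : b ≠ a := fun e => hx ⟨rfl, e.symm⟩
            refine ⟨b, hb, hba, ((i6 u hu).2.toU fun e he =>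
              ⟨fun h => i2 _ (i5 e he).1 (h ▸ ha), ?_⟩).mono hA⟩
            rcases (i5 e he).2 with h | h
            · exact fun h' => i2 _ h (h' ▸ ha)
            · exact h ▸ hba
          · exact ⟨a, ha, hxa, (h.2.mono hA).tail ⟨h.1, hxa, Or.inr (by simp)⟩⟩
        · exact ⟨b, hb, h.1, h.2.mono hA⟩
      intro u hu v hv h2 h3
      obtain ⟨y, y1, y2, y3⟩ := h1 u hu h2
      obtain ⟨z, z1, z2, z3⟩ := h1 v hv h3
      exact (y3.trans ((f4 x y y1 z z1 y2 z2).mono hF)).trans z3.symm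

theorem result (n : ℕ) (hn : 1 ≤ n) (E : Finset (Fin n × Fin n)) (_hloop : ∀ e ∈ E, e.1 ≠ e.2)
    (hE : StronglyBiconnected E) (hmin : ∀ e ∈ E, ¬ StronglyBiconnected (E.erase e)) :
    E.card ≤ 2 * n - 2 := by
  classical
  let s : Fin n := ⟨0, hn⟩
  obtain ⟨S, ⟨hs, hG⟩, hmax⟩ := Set.exists_max_image {S : Finset (Fin n) | s ∈ S ∧ Good E S}
    Finset.card (Set.toFinite _) ⟨{s}, by simp, ∅, by simp, by simp, by
      simp only [mem_singleton, forall_eq]
      exact ⟨.refl, fun _ _ _ => .refl⟩⟩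
  have hS : ∀ w, w ∈ S := by
    intro w
    by_contra hw
    obtain ⟨S', h1, h2⟩ := extend hE hs hw hG
    exact absurd (hmax S' ⟨h1.1 hs, h2⟩) (not_le.2 (card_lt_card h1))
  obtain ⟨F, f1, f2, f3, f4⟩ := hG
  have hFE : E ⊆ F := by
    intro e he
    by_contra hF
    have hsub : F ⊆ E.erase e := fun y hy => mem_erase.2 ⟨fun h => hF (h ▸ hy), f1 hy⟩
    exact hmin e he ⟨fun u v => (f3 u (hS u) v (hS v)).mono hsub,
      fun x u v h1 h2 => (f4 x u (hS u) v (hS v) h1 h2).mono hsub⟩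
  have h1 := card_le_card hFE
  have h2 : S.card ≤ n := by simpa using card_le_univ S
  omega

end Pool.Agent.Results.MP_5e4462_co.EarCount
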